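import Mathlib

/-!
# No Banach space with a 1-unconditional basis has the super alternative Daugavet property

`SuperADP X`: the super alternative Daugavet property. `SchauderBasis ℝ X` is Mathlib's notion of a
Schauder basis `(b n)` of `X`; `OneUnconditional b` says that `b` is 1-unconditional.

Proof: let `x = ∑_{n ∈ F} x_n e_n` be a unit vector, `F` finite, and let `θ` be signs. Take the weak
neighbourhood of `y₀ = (1/2) ∑ θ_n x_n e_n` given by the coordinates in `F`. If `f` is a norm one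
functional with `f x ≈ 1`, `f y ≈ 1` then `∑ |f(e_n) y_n| ≤ 1` forces `∑_{θ_n = -1} f(e_n) x_n ≲ 0`, and
`‖x_+‖ ≥ 1`, where `x_+ = ∑_{θ_n = 1} x_n e_n`. So the super ADP implies
`‖x‖ = max(‖x_+‖, ‖x_-‖)` for all `x` and `θ`, i.e. `X = c₀`, and `c₀` fails the super ADP.
-/

set_option autoImplicit false

open Filter Topology

namespace Pool.Agent.Results.MP_235f01_an.NoUnconditionalBasis

/-- `X` has the super alternative Daugavet property: `X` is infinite-dimensional and for every unit
vector `x` and every nonempty relatively weakly open subset `W` of the closed unit ball,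
`sup_{y ∈ W} max (‖x + y‖, ‖x - y‖) = 2`. -/
def SuperADP (X : Type*) [NormedAddCommGroup X] [NormedSpace ℝ X] : Prop :=
  ¬ FiniteDimensional ℝ X ∧ ∀ x : X, ‖x‖ = 1 → ∀ V : Set (WeakSpace ℝ X), IsOpen V →
    (toWeakSpace ℝ X ⁻¹' V ∩ Metric.closedBall 0 1).Nonempty →
    IsLUB ((fun y : X => max ‖x + y‖ ‖x - y‖) '' (toWeakSpace ℝ X ⁻¹' V ∩ Metric.closedBall 0 1)) 2

/-- The Schauder basis `(b n)` is 1-unconditional: changes of signs of the coefficients do not change
the norm of a finite linear combination. -/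
def OneUnconditional {X : Type*} [NormedAddCommGroup X] [NormedSpace ℝ X]
    (b : SchauderBasis ℝ X) : Prop :=
  ∀ (F : Finset ℕ) (a ε : ℕ → ℝ), (∀ n, ε n = 1 ∨ ε n = -1) →
    ‖∑ n ∈ F, (ε n * a n) • b n‖ = ‖∑ n ∈ F, a n • b n‖

variable {X : Type*} [NormedAddCommGroup X] [NormedSpace ℝ X]

/-- finite sums: a restriction of the support does not increase the norm -/
lemma norm_sub_le {b : SchauderBasis ℝ X} (hb : OneUnconditional b) (F A : Finset ℕ) (hA : A ⊆ F)
    (a : ℕ → ℝ) : ‖∑ n ∈ A, a n • b n‖ ≤ ‖∑ n ∈ F, a n • b n‖ := by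
  classical
  have h := hb F a (fun n => if n ∈ A then 1 else -1) (fun n => by
    by_cases h : n ∈ A <;> simp [h])
  have h2 : (2 : ℝ) • ∑ n ∈ A, a n • b n = (∑ n ∈ F, a n • b n) +
      ∑ n ∈ F, ((if n ∈ A then (1 : ℝ) else -1) * a n) • b n := by
    rw [← Finset.sum_add_distrib, Finset.smul_sum, ← Finset.sum_subset hA]
    · apply Finset.sum_congr rfl
      intro n hn
      simp only [hn, if_true]
      module
    · intro n hn hn'
      simp only [hn', if_false]
      module
  have h3 : 2 * ‖∑ n ∈ A, a n • b n‖ ≤ ‖∑ n ∈ F, a n • b n‖ + ‖∑ n ∈ F, a n • b n‖ := by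
    have := norm_add_le (∑ n ∈ F, a n • b n)
      (∑ n ∈ F, ((if n ∈ A then (1 : ℝ) else -1) * a n) • b n)
    rw [← h2, norm_smul, h] at this
    simpa using this
  linarith

/-- changing the signs of finitely many coordinates does not change the norm -/
lemma norm_flip {b : SchauderBasis ℝ X} (hb : OneUnconditional b) (F : Finset ℕ) (y : X) :
    ‖y - ∑ n ∈ F, (2 * b.coord n y) • b n‖ ≤ ‖y‖ := by
  classical
  have h1 : Tendsto (fun N => ‖SchauderBasis.proj b N y‖) atTop (𝓝 ‖y‖) :=
    (SchauderBasis.tendsto_proj b y).norm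
  have h2 : Tendsto (fun N => ‖SchauderBasis.proj b N y - ∑ n ∈ F, (2 * b.coord n y) • b n‖) atTop
      (𝓝 ‖y - ∑ n ∈ F, (2 * b.coord n y) • b n‖) :=
    ((SchauderBasis.tendsto_proj b y).sub_const _).norm
  refine le_of_tendsto_of_tendsto h2 h1 ?_
  obtain ⟨M, hM⟩ : ∃ M, F ⊆ Finset.range M := by
    obtain ⟨M, hM⟩ := F.bddAbove
    exact ⟨M + 1, fun n hn => Finset.mem_range.2 (Nat.lt_succ_of_le (hM hn))⟩
  filter_upwards [eventually_ge_atTop M] with N hN
  have hFN : F ⊆ Finset.range N := hM.trans (Finset.range_subset_range.2 hN)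
  have h := hb (Finset.range N) (fun n => b.coord n y) (fun n => if n ∈ F then -1 else 1)
    (fun n => by by_cases h : n ∈ F <;> simp [h])
  rw [SchauderBasis.proj_apply, ← h]
  apply le_of_eq
  congr 1
  have h3 : ∑ n ∈ F, (2 * b.coord n y) • b n =
      ∑ n ∈ Finset.range N, if n ∈ F then (2 * b.coord n y) • b n else 0 := by
    rw [Finset.sum_ite_mem, Finset.inter_eq_right.2 hFN]
  rw [h3, ← Finset.sum_sub_distrib]
  apply Finset.sum_congr rfl
  intro n _
  by_cases hn : n ∈ F
  · simp only [hn, if_true]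
    module
  · simp only [hn, if_false]
    module

/-- The key inequality: if `‖f‖ ≤ 1` and `‖y‖ ≤ 1` then `f y + 2 ∑_{n ∈ F} max(0, - f(e_n) y_n) ≤ 1`. -/
lemma key {b : SchauderBasis ℝ X} (hb : OneUnconditional b) (F : Finset ℕ) (y : X) (hy : ‖y‖ ≤ 1)
    (f : StrongDual ℝ X) (hf : ‖f‖ ≤ 1) :
    f y + ∑ n ∈ F, 2 * max 0 (-(b.coord n y * f (b n))) ≤ 1 := by
  classical
  set G := F.filter (fun n => b.coord n y * f (b n) < 0) with hG
  have h1 := norm_flip hb G y
  have h2 : f (y - ∑ n ∈ G, (2 * b.coord n y) • b n) ≤ 1 := by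
    calc f (y - ∑ n ∈ G, (2 * b.coord n y) • b n)
        ≤ ‖f (y - ∑ n ∈ G, (2 * b.coord n y) • b n)‖ := le_abs_self _
      _ ≤ ‖f‖ * ‖y - ∑ n ∈ G, (2 * b.coord n y) • b n‖ := f.le_opNorm _
      _ ≤ 1 * 1 := by gcongr; exact h1.trans hy
      _ = 1 := by norm_num
  have h3 : ∑ n ∈ F, 2 * max 0 (-(b.coord n y * f (b n))) = ∑ n ∈ G, -(2 * b.coord n y * f (b n)) := by
    rw [hG, Finset.sum_filter]
    apply Finset.sum_congr rfl
    intro n _
    by_cases hn : b.coord n y * f (b n) < 0
    · rw [if_pos hn, max_eq_right (by linarith)]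
      ring
    · rw [if_neg hn, max_eq_left (by linarith)]
      ring
  rw [h3]
  rw [map_sub, map_sum] at h2
  simp only [map_smul, smul_eq_mul] at h2
  rw [Finset.sum_neg_distrib]
  linarith

/-- one of the two cases of the main step -/
lemma half {b : SchauderBasis ℝ X} (hb : OneUnconditional b) (F P : Finset ℕ) (hP : P ⊆ F)
    (x : ℕ → ℝ) (hx : ‖∑ n ∈ F, x n • b n‖ = 1) (y : X) (hy : ‖y‖ ≤ 1) (η : ℝ) (hη : 0 ≤ η)
    (hyx : ∀ n ∈ F \ P, |b.coord n y + x n / 2| * ‖b n‖ ≤ η)
    (ε : ℝ) (h : 2 - ε < ‖∑ n ∈ F, x n • b n + y‖) :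
    1 - 2 * ε - 2 * F.card * η ≤ ‖∑ n ∈ P, x n • b n‖ := by
  classical
  obtain ⟨f, hf, hf'⟩ := exists_dual_vector'' ℝ (∑ n ∈ F, x n • b n + y)
  have hfe : f (∑ n ∈ F, x n • b n) + f y = ‖∑ n ∈ F, x n • b n + y‖ := by
    rw [← map_add]; simpa using hf'
  have hle : ∀ z : X, f z ≤ ‖z‖ := fun z => by
    calc f z ≤ ‖f z‖ := le_abs_self _
      _ ≤ ‖f‖ * ‖z‖ := f.le_opNorm _
      _ ≤ 1 * ‖z‖ := by gcongr
      _ = ‖z‖ := one_mul _
  have hfx : 1 - ε ≤ f (∑ n ∈ F, x n • b n) := by
    have := (hle y).trans hy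
    linarith
  have hfy : 1 - ε ≤ f y := by
    have := hle (∑ n ∈ F, x n • b n)
    rw [hx] at this
    linarith
  have hk := key hb (F \ P) y hy f hf
  -- the part of `x` off `P`
  have h4 : ∑ n ∈ F \ P, x n * f (b n) ≤
      ∑ n ∈ F \ P, (2 * max 0 (-(b.coord n y * f (b n))) + 2 * η) := by
    apply Finset.sum_le_sum
    intro n hn
    have h5 : x n * f (b n) = 2 * (-(b.coord n y * f (b n))) +
        2 * ((b.coord n y + x n / 2) * f (b n)) := by ring
    have h6 : (b.coord n y + x n / 2) * f (b n) ≤ η := by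
      calc (b.coord n y + x n / 2) * f (b n) ≤ |(b.coord n y + x n / 2) * f (b n)| := le_abs_self _
        _ = |b.coord n y + x n / 2| * |f (b n)| := abs_mul _ _
        _ ≤ |b.coord n y + x n / 2| * ‖b n‖ := by
            gcongr
            calc |f (b n)| ≤ ‖f‖ * ‖b n‖ := f.le_opNorm _
              _ ≤ 1 * ‖b n‖ := by gcongr
              _ = ‖b n‖ := one_mul _
        _ ≤ η := hyx n hn
    have h7 : -(b.coord n y * f (b n)) ≤ max 0 (-(b.coord n y * f (b n))) := le_max_right _ _
    rw [h5]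
    linarith
  have h8 : ∑ n ∈ F \ P, (2 * max 0 (-(b.coord n y * f (b n))) + 2 * η) ≤ ε + 2 * F.card * η := by
    rw [Finset.sum_add_distrib, Finset.sum_const, nsmul_eq_mul]
    have h9 : ((F \ P).card : ℝ) ≤ F.card := by
      exact_mod_cast Finset.card_le_card Finset.sdiff_subset
    have h10 : ((F \ P).card : ℝ) * (2 * η) ≤ F.card * (2 * η) := by gcongr
    linarith
  have h11 : f (∑ n ∈ F, x n • b n) = f (∑ n ∈ P, x n • b n) + ∑ n ∈ F \ P, x n * f (b n) := by
    rw [← Finset.sum_sdiff hP, map_add, add_comm]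
    congr 1
    rw [map_sum]
    simp
  have := hle (∑ n ∈ P, x n • b n)
  linarith

/-- the coordinate neighbourhoods are weakly open -/
lemma isOpen_nhd (b : SchauderBasis ℝ X) (F : Finset ℕ) (c : ℕ → ℝ) (δ : ℝ) :
    IsOpen (⋂ n ∈ F, {z : WeakSpace ℝ X |
      |b.coord n ((toWeakSpace ℝ X).symm z) - c n| < δ}) := by
  apply isOpen_biInter_finset
  intro n _
  have h : Continuous fun z : WeakSpace ℝ X => b.coord n ((toWeakSpace ℝ X).symm z) :=
    WeakBilin.eval_continuous (topDualPairing ℝ X).flip (b.coord n)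
  exact isOpen_lt (h.sub continuous_const).abs continuous_const

/-- The super ADP implies `‖x‖ ≤ max (‖x_P‖, ‖x_{F ∖ P}‖)`. -/
lemma norm_le_max {b : SchauderBasis ℝ X} (hb : OneUnconditional b) (hX : SuperADP X)
    (F P : Finset ℕ) (hP : P ⊆ F) (x : ℕ → ℝ) :
    ‖∑ n ∈ F, x n • b n‖ ≤ max ‖∑ n ∈ P, x n • b n‖ ‖∑ n ∈ F \ P, x n • b n‖ := by
  classical
  wlog hx : ‖∑ n ∈ F, x n • b n‖ = 1 generalizing x
  · by_cases h0 : ‖∑ n ∈ F, x n • b n‖ = 0
    · rw [h0]
      exact le_max_of_le_left (norm_nonneg _)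
    · set r := ‖∑ n ∈ F, x n • b n‖ with hr
      have hr0 : 0 < r := lt_of_le_of_ne (norm_nonneg _) (Ne.symm h0)
      have hs : ∀ A : Finset ℕ, ∑ n ∈ A, (r⁻¹ * x n) • b n = r⁻¹ • ∑ n ∈ A, x n • b n := by
        intro A
        rw [Finset.smul_sum]
        simp only [smul_smul]
      have h1 := this (fun n => r⁻¹ * x n) (by
        rw [hs, norm_smul, ← hr, norm_inv, Real.norm_of_nonneg hr0.le]
        exact inv_mul_cancel₀ h0)
      simp only [hs, norm_smul, norm_inv, Real.norm_of_nonneg hr0.le] at h1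
      rw [← hr, inv_mul_cancel₀ h0] at h1
      rcases le_max_iff.1 h1 with h2 | h2
      · apply le_max_of_le_left
        rw [inv_mul_eq_div, le_div_iff₀ hr0] at h2
        linarith
      · apply le_max_of_le_right
        rw [inv_mul_eq_div, le_div_iff₀ hr0] at h2
        linarith
  rw [hx]
  -- it suffices to prove this up to `ε`
  refine le_of_forall_pos_le_add fun ε hε => ?_
  set s : ℕ → ℝ := fun n => if n ∈ P then 1 else -1 with hs
  have hs1 : ∀ n, s n = 1 ∨ s n = -1 := fun n => by by_cases h : n ∈ P <;> simp [hs, h]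
  set y₀ : X := (1 / 2 : ℝ) • ∑ n ∈ F, (s n * x n) • b n with hy₀
  have hy₀n : ‖y₀‖ ≤ 1 := by
    rw [hy₀, norm_smul, hb F x s hs1, hx]
    norm_num
  have hcoord : ∀ n ∈ F, b.coord n y₀ = s n * x n / 2 := by
    intro n hn
    rw [hy₀, map_smul, map_sum, Finset.sum_eq_single n]
    · rw [map_smul]
      have := b.ortho n n
      simp only [Pi.single_eq_same] at this
      rw [show b.coord n (b n) = 1 from this]
      simp only [smul_eq_mul]
      ring
    · intro m _ hmn
      rw [map_smul]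
      have := b.ortho n m
      have h0 : b.coord n (b m) = 0 := by
        refine Eq.trans this ?_
        simp [hmn.symm]
      rw [h0]
      simp
    · intro h
      exact absurd hn h
  -- the neighbourhood
  set K : ℝ := ∑ n ∈ F, ‖b n‖ with hK
  have hK0 : 0 ≤ K := Finset.sum_nonneg fun _ _ => norm_nonneg _
  have hKn : ∀ n ∈ F, ‖b n‖ ≤ K := fun n hn =>
    Finset.single_le_sum (f := fun n => ‖b n‖) (fun _ _ => norm_nonneg _) hn
  set η : ℝ := ε / (4 * (F.card + 1)) with hη
  have hη0 : 0 < η := by positivity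
  have hηc : 2 * F.card * η ≤ ε / 2 := by
    rw [hη]
    have hc : (0 : ℝ) < 4 * (F.card + 1) := by positivity
    rw [mul_div_assoc', div_le_div_iff₀ hc (by norm_num)]
    nlinarith
  set δ : ℝ := η / (K + 1) with hδ
  have hδ0 : 0 < δ := by positivity
  set V : Set (WeakSpace ℝ X) := ⋂ n ∈ F, {z : WeakSpace ℝ X |
      |b.coord n ((toWeakSpace ℝ X).symm z) - s n * x n / 2| < δ} with hV
  have hVo : IsOpen V := isOpen_nhd b F (fun n => s n * x n / 2) δ
  have hne : (toWeakSpace ℝ X ⁻¹' V ∩ Metric.closedBall 0 1).Nonempty := by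
    refine ⟨y₀, ?_, by simpa using hy₀n⟩
    simp only [hV, Set.mem_preimage, Set.mem_iInter, Set.mem_ofPred_eq,
      LinearEquiv.symm_apply_apply]
    intro n hn
    rw [hcoord n hn]
    simpa using hδ0
  have hlub := hX.2 _ hx V hVo hne
  obtain ⟨_, ⟨y, ⟨hyV, hyB⟩, rfl⟩, hy, -⟩ := hlub.exists_between (show 2 - ε / 4 < 2 by linarith)
  have hyB' : ‖y‖ ≤ 1 := by simpa using hyB
  simp only [hV, Set.mem_preimage, Set.mem_iInter, Set.mem_ofPred_eq,
    LinearEquiv.symm_apply_apply] at hyV
  have hsmall : ∀ n ∈ F, |b.coord n y - s n * x n / 2| * ‖b n‖ ≤ η := by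
    intro n hn
    calc |b.coord n y - s n * x n / 2| * ‖b n‖ ≤ δ * (K + 1) := by
          gcongr
          · exact (hyV n hn).le
          · linarith [hKn n hn]
      _ = η := by rw [hδ]; field_simp
  rcases lt_max_iff.1 hy with h | h
  · have := half hb F P hP x hx y hyB' η hη0.le (by
      intro n hn
      have hn' := hsmall n (Finset.mem_sdiff.1 hn).1
      have : s n = -1 := by simp [hs, (Finset.mem_sdiff.1 hn).2]
      rw [this] at hn'
      have e : b.coord n y + x n / 2 = b.coord n y - -1 * x n / 2 := by ring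
      rw [e]
      exact hn') (ε / 4) h
    have h2 := le_max_left ‖∑ n ∈ P, x n • b n‖ ‖∑ n ∈ F \ P, x n • b n‖
    linarith
  · have := half hb F (F \ P) Finset.sdiff_subset x hx (-y) (by simpa using hyB') η hη0.le (by
      intro n hn
      have hnF : n ∈ F := (Finset.mem_sdiff.1 hn).1
      have hnP : n ∈ P := by
        by_contra hc
        exact (Finset.mem_sdiff.1 hn).2 (Finset.mem_sdiff.2 ⟨hnF, hc⟩)
      have hn' := hsmall n hnF
      have : s n = 1 := by simp [hs, hnP]
      rw [this] at hn'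
      have e : |b.coord n (-y) + x n / 2| = |b.coord n y - 1 * x n / 2| := by
        rw [map_neg, ← abs_neg]
        congr 1
        ring
      rw [e]
      exact hn') (ε / 4) (by rwa [← sub_eq_add_neg])
    have h2 := le_max_right ‖∑ n ∈ P, x n • b n‖ ‖∑ n ∈ F \ P, x n • b n‖
    linarith

/-- The norm is the sup norm. -/
lemma norm_le_of_forall {b : SchauderBasis ℝ X} (hb : OneUnconditional b) (hX : SuperADP X)
    (x : ℕ → ℝ) (C : ℝ) (hC : 0 ≤ C) (F : Finset ℕ) (h : ∀ n ∈ F, ‖x n • b n‖ ≤ C) :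
    ‖∑ n ∈ F, x n • b n‖ ≤ C := by
  classical
  induction F using Finset.induction_on with
  | empty => simpa using hC
  | insert m F hm ih =>
    have h1 := norm_le_max hb hX (insert m F) {m} (by simp) x
    have h2 : insert m F \ {m} = F := by
      rw [Finset.insert_sdiff_of_mem _ (Finset.mem_singleton_self m), Finset.sdiff_singleton_eq_erase,
        Finset.erase_eq_of_notMem hm]
    rw [h2, Finset.sum_singleton] at h1
    exact h1.trans (max_le (h m (Finset.mem_insert_self _ _))
      (ih fun n hn => h n (Finset.mem_insert_of_mem hn)))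

/-- **No Banach space with a 1-unconditional basis has the super alternative Daugavet property.** -/
theorem result {X : Type*} [NormedAddCommGroup X] [NormedSpace ℝ X] [CompleteSpace X]
    (b : SchauderBasis ℝ X) (hb : OneUnconditional b) : ¬ SuperADP X := by
  classical
  intro hX
  have hb0 : b 0 ≠ 0 := by
    intro h
    have := b.ortho 0 0
    simp only [Pi.single_eq_same] at this
    have h' : b.coord 0 (b 0) = 1 := this
    rw [h, map_zero] at h'
    exact zero_ne_one h'
  have hn0 : 0 < ‖b 0‖ := norm_pos_iff.2 hb0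
  set c : ℝ := ‖b 0‖⁻¹ with hc
  have hc0 : 0 < c := inv_pos.2 hn0
  have hcb : c * ‖b 0‖ = 1 := inv_mul_cancel₀ hn0.ne'
  have hx : ‖c • b 0‖ = 1 := by rw [norm_smul, Real.norm_of_nonneg hc0.le, hcb]
  set V : Set (WeakSpace ℝ X) := ⋂ n ∈ ({0} : Finset ℕ), {z : WeakSpace ℝ X |
      |b.coord n ((toWeakSpace ℝ X).symm z) - (fun _ => (0 : ℝ)) n| < c / 2} with hV
  have hVo : IsOpen V := isOpen_nhd b {0} (fun _ => 0) (c / 2)
  have hne : (toWeakSpace ℝ X ⁻¹' V ∩ Metric.closedBall 0 1).Nonempty := by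
    refine ⟨0, ?_, by simp⟩
    simp only [hV, Set.mem_preimage, Set.mem_iInter, Set.mem_ofPred_eq, LinearEquiv.symm_apply_apply]
    intro n _
    simpa using hc0
  have hlub := hX.2 _ hx V hVo hne
  have hub : ∀ y ∈ toWeakSpace ℝ X ⁻¹' V ∩ Metric.closedBall 0 1, ∀ t : ℝ, (t = 1 ∨ t = -1) →
      ‖c • b 0 + t • y‖ ≤ 3 / 2 := by
    rintro y ⟨hyV, hyB⟩ t ht
    have hyB' : ‖y‖ ≤ 1 := by simpa using hyB
    simp only [hV, Set.mem_preimage, Set.mem_iInter, Set.mem_ofPred_eq,
      LinearEquiv.symm_apply_apply, Finset.mem_singleton, sub_zero] at hyV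
    have hy0 : |b.coord 0 y| < c / 2 := hyV 0 rfl
    have ht1 : |t| = 1 := by rcases ht with rfl | rfl <;> simp
    have hlim : Tendsto (fun N => ‖c • b 0 + t • SchauderBasis.proj b N y‖) atTop
        (𝓝 ‖c • b 0 + t • y‖) :=
      (((SchauderBasis.tendsto_proj b y).const_smul t).const_add (c • b 0)).norm
    refine le_of_tendsto hlim ?_
    filter_upwards [eventually_ge_atTop 1] with N hN
    -- coordinates of `proj N y` are bounded by `‖y‖`
    have hcoordle : ∀ n, ‖b.coord n y • b n‖ ≤ 1 := by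
      intro n
      have h1 : Tendsto (fun N => ‖SchauderBasis.proj b N y‖) atTop (𝓝 ‖y‖) :=
        (SchauderBasis.tendsto_proj b y).norm
      refine (ge_of_tendsto h1 ?_).trans hyB'
      filter_upwards [eventually_gt_atTop n] with N hN
      rw [SchauderBasis.proj_apply]
      have := norm_sub_le hb (Finset.range N) {n} (by simpa using hN) (fun n => b.coord n y)
      simpa using this
    have hsum : c • b 0 + t • SchauderBasis.proj b N y =
        ∑ n ∈ Finset.range N, ((if n = 0 then c else 0) + t * b.coord n y) • b n := by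
      rw [SchauderBasis.proj_apply, Finset.smul_sum]
      simp only [add_smul, Finset.sum_add_distrib, mul_smul]
      congr 1
      rw [Finset.sum_eq_single 0]
      · simp
      · intro n _ hn
        simp [hn]
      · intro h
        exact absurd (Finset.mem_range.2 hN) h
    rw [hsum]
    apply norm_le_of_forall hb hX _ _ (by norm_num)
    intro n _
    by_cases hn : n = 0
    · subst hn
      simp only [if_true]
      rw [norm_smul, Real.norm_eq_abs]
      have h1 : |c + t * b.coord 0 y| ≤ c + c / 2 := by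
        calc |c + t * b.coord 0 y| ≤ |c| + |t * b.coord 0 y| := abs_add_le _ _
          _ = c + |b.coord 0 y| := by rw [abs_of_pos hc0, abs_mul, ht1, one_mul]
          _ ≤ c + c / 2 := by linarith
      calc |c + t * b.coord 0 y| * ‖b 0‖ ≤ (c + c / 2) * ‖b 0‖ := by gcongr
        _ = 3 / 2 * (c * ‖b 0‖) := by ring
        _ = 3 / 2 := by rw [hcb]; norm_num
    · simp only [hn, if_false, zero_add]
      rw [mul_smul, norm_smul, Real.norm_eq_abs, ht1, one_mul]
      linarith [hcoordle n]
  have h32 : (2 : ℝ) ≤ 3 / 2 := by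
    apply hlub.2
    rintro _ ⟨y, hy, rfl⟩
    apply max_le
    · simpa using hub y hy 1 (Or.inl rfl)
    · have := hub y hy (-1) (Or.inr rfl)
      rwa [neg_one_smul, ← sub_eq_add_neg] at this
  norm_num at h32

end Pool.Agent.Results.MP_235f01_an.NoUnconditionalBasis
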